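import Mathlib

open Set Filter Topology

namespace Pool.Agent.Results.MP_c0f1e3_an.No

theorem fin {g : Set ℝ} (hg : g.Finite) (h : ∀ x ∈ g, 1 ≤ x) (n : ℕ) :
    {x ∈ AddSubmonoid.closure g | x < n}.Finite := by
  have h0 : ∀ x ∈ AddSubmonoid.closure g, 0 ≤ x := fun x hx =>
    AddSubmonoid.closure_le.2 (show g ⊆ AddSubmonoid.nonneg ℝ from
      fun x hx => zero_le_one.trans (h x hx)) hx
  induction n with
  | zero => exact finite_empty.subset fun x hx => (h0 x hx.1).not_gt (by simpa using hx.2)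
  | succ n ih =>
    refine ((hg.image2 (· + ·) ih).insert 0).subset fun x ⟨h1, h2⟩ => ?_
    induction h1 using AddSubmonoid.closure_induction_left with
    | zero => exact Or.inl rfl
    | add_left a ha b hb _ =>
      exact Or.inr ⟨a, ha, b, ⟨hb, by push_cast at h2; linarith [h a ha]⟩, rfl⟩

theorem result (𝕜 V : Type) [RCLike 𝕜] [NormedAddCommGroup V] [NormedSpace 𝕜 V]
    [FiniteDimensional 𝕜 V] (hV : 2 ≤ Module.finrank 𝕜 V) (m : ℕ) (w : Fin m → V)
    (hw : ∀ j, w j ≠ 0) : ∃ G : Set (V ≃ₗ[𝕜] V), G.Finite ∧ (∀ g ∈ G, ∀ g' ∈ G, g * g' = g' * g) ∧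
    (∃ v, ∃ D > 0, ∀ j (t : ℝ), 0 < t →
      ∃ s ∈ Subsemigroup.closure G, dist ((t : 𝕜) • w j) (s v) < D) ∧
    ∀ y, interior (closure {x | ∃ s ∈ Subsemigroup.closure G, s y = x}) = ∅ := by
  have : Nontrivial V := Module.nontrivial_of_finrank_pos (R := 𝕜) (by omega)
  obtain ⟨x0, hx0⟩ := exists_ne (0 : V)
  obtain ⟨φ, hφ⟩ := Module.exists_dual_forall_apply_ne_zero (K := 𝕜)
    (fun o : Option (Fin m) => o.elim x0 w) (by rintro (_ | j); exacts [hx0, hw j])
  obtain ⟨u, hu, u0⟩ := Submodule.exists_mem_ne_zero_of_ne_bot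
    (LinearMap.ker_ne_bot_of_finrank_lt (f := φ) (by rw [Module.finrank_self]; omega))
  obtain ⟨ψ0, h0⟩ := Module.Projective.exists_dual_eq_one 𝕜 u0
  obtain ⟨M, hM⟩ := (finite_range fun j => 1 - RCLike.re (ψ0 (w j) / φ (w j))).bddAbove
  set ψ := ψ0 + (M : 𝕜) • φ
  have u1 : φ u = 0 := hu
  have u2 : ψ u = 1 := by simp [ψ, h0, u1]
  have x1 : φ x0 ≠ 0 := hφ none
  have w0 : ∀ j, φ (w j) ≠ 0 := fun j => hφ (some j)
  obtain ⟨v, v1, v2⟩ : ∃ v, φ v = 1 ∧ ψ v = 0 :=
    ⟨(φ x0)⁻¹ • x0 - ψ ((φ x0)⁻¹ • x0) • u, by simp [u1, x1], by simp [u2]⟩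
  set h : V → ℝ := fun y => RCLike.re (ψ y / φ y)
  have w1 : ∀ x ∈ range fun j => h (w j), 1 ≤ x := by
    rintro _ ⟨j, rfl⟩
    have := hM ⟨j, rfl⟩
    simp only [h, ψ, LinearMap.add_apply, LinearMap.smul_apply, smul_eq_mul, add_div,
      mul_div_cancel_right₀ _ (w0 j), map_add, RCLike.ofReal_re] at this ⊢
    linarith
  have : ∀ a, φ a ≠ 0 → ∃ g : V ≃ₗ[𝕜] V, ∀ y, g y = φ a • y + φ y • a - (φ a * φ y) • v :=
    fun a ha => ⟨.ofInjectiveEndo (φ a • LinearMap.id + φ.smulRight a - φ.smulRight (φ a • v))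
      ((injective_iff_map_eq_zero _).2 fun y hy => by
        have h1 := congrArg φ hy
        simp [v1, ha] at h1
        simpa [h1, ha] using hy), fun y => by simp [smul_smul, mul_comm]⟩
  choose! P hP using this
  set W := range w ∪ (fun a : ℝ => (Real.exp a : 𝕜) • v) '' {√2, 1, -√2, -1}
  have hE : ∀ a : ℝ, φ ((Real.exp a : 𝕜) • v) ≠ 0 := fun a => by simp [v1]
  have hW : ∀ a ∈ W, φ a ≠ 0 := by
    rintro _ (⟨j, rfl⟩ | ⟨a, -, rfl⟩); exacts [w0 j, hE a]
  set S := Subsemigroup.closure (P '' W)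
  set Λ := AddSubmonoid.closure (range fun j => h (w j))
  refine ⟨P '' W, ((finite_range w).union ((toFinite _).image _)).image _, ?_,
    ⟨v, 1, one_pos, fun j t ht => ?_⟩, fun y => ?_⟩
  · rintro _ ⟨a, ha, rfl⟩ _ ⟨b, hb, rfl⟩
    ext y
    simp only [LinearEquiv.mul_apply, hP _ (hW a ha), hP _ (hW b hb), map_sub, map_add, map_smul,
      v1, smul_eq_mul]
    module
  · have key : ∀ a ∈ AddSubgroup.closure {√2, 1}, ∃ s ∈ S, s v = (Real.exp a : 𝕜) • w j := by
      have k : ∀ b ∈ ({√2, 1, -√2, -1} : Set ℝ), ∀ a : ℝ, (∃ s ∈ S, s v = (Real.exp a : 𝕜) • w j) →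
          ∃ s ∈ S, s v = (Real.exp (b + a) : 𝕜) • w j := fun b hb a ⟨s, h1, h2⟩ =>
        ⟨P _ * s, mul_mem (Subsemigroup.subset_closure ⟨_, Or.inr ⟨b, hb, rfl⟩, rfl⟩) h1, by
          rw [LinearEquiv.mul_apply, h2, hP _ (hE b), Real.exp_add]
          simp only [map_smul, v1, smul_eq_mul, RCLike.ofReal_mul]
          module⟩
      intro a ha
      induction ha using AddSubgroup.closure_induction_left with
      | zero => exact ⟨P (w j), Subsemigroup.subset_closure ⟨_, Or.inl ⟨j, rfl⟩, rfl⟩, by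
          simp [hP _ (w0 j), v1]⟩
      | add_left b hb a _ ih => exact k b (by rcases hb with rfl | rfl <;> simp) a ih
      | neg_add_cancel b hb a _ ih => exact k _ (by rcases hb with rfl | rfl <;> simp) a ih
    obtain ⟨a, h1, h2⟩ := (dense_addSubgroupClosure_pair_iff.2 (by
      simpa using irrational_sqrt_two : Irrational (√2 / 1))).inter_open_nonempty
      {a | dist ((t : 𝕜) • w j) ((Real.exp a : 𝕜) • w j) < 1} (isOpen_lt (by fun_prop)
      continuous_const) ⟨Real.log t, by simp [Real.exp_log ht]⟩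
    obtain ⟨s, h3, h4⟩ := key a h2
    exact ⟨s, h3, h4 ▸ h1⟩
  have key : ∀ s ∈ S, ∃ l ∈ Λ, ∀ y, (φ y = 0 → φ (s y) = 0) ∧
      (φ y ≠ 0 → φ (s y) ≠ 0 ∧ h (s y) = h y + l) := fun s hs => by
    induction hs using Subsemigroup.closure_induction with
    | mem s hs =>
      obtain ⟨a, ha, rfl⟩ := hs
      have h1 := hW a ha
      refine ⟨h a, ?_, fun y => ⟨fun h => by simp [hP _ h1, h], fun h2 => ⟨by
        simp [hP _ h1, v1, h1, h2], ?_⟩⟩⟩
      · rcases ha with ⟨j, rfl⟩ | ⟨a, -, rfl⟩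
        · exact AddSubmonoid.subset_closure ⟨j, rfl⟩
        · simp [h, v2]
      · simp only [h, hP _ h1, map_sub, map_add, map_smul, v1, v2, smul_eq_mul]
        rw [← map_add, mul_one, add_sub_cancel_left]
        congr 1; field_simp; ring
    | mul a b _ _ h1 h2 =>
      obtain ⟨l, l0, h1⟩ := h1
      obtain ⟨k, k0, h2⟩ := h2
      refine ⟨k + l, add_mem k0 l0, fun y => ⟨fun h => (h1 _).1 ((h2 y).1 h), fun h => ?_⟩⟩
      have := (h1 _).2 ((h2 y).2 h).1
      exact ⟨this.1, by rw [← add_assoc, ← ((h2 y).2 h).2]; exact this.2⟩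
  have hF := fin (finite_range _) w1
  have c1 := φ.continuous_of_finiteDimensional
  have c2 := ψ.continuous_of_finiteDimensional
  have hC : IsClosed {x | φ x = 0 ∨ h x - h y ∈ Λ} := by
    refine isOpen_compl_iff.1 (isOpen_iff_mem_nhds.2 fun x hx => ?_)
    simp only [mem_compl_iff, mem_ofPred_eq, not_or] at hx
    obtain ⟨n, hn⟩ := exists_nat_gt (h x - h y)
    have h1 : ContinuousAt (fun x => h x - h y) x :=
      (RCLike.continuous_re.continuousAt.comp (c2.continuousAt.div c1.continuousAt hx.1)).sub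
        continuousAt_const
    filter_upwards [c1.continuousAt.eventually_ne hx.1, h1.eventually (gt_mem_nhds hn),
      h1.eventually_mem ((hF n).isClosed.isOpen_compl.mem_nhds fun h => hx.2 h.1)] with z a b c
    exact fun h => h.elim a fun h => c ⟨h, b⟩
  refine eq_empty_of_forall_notMem fun x hx => ?_
  replace hx := interior_mono (closure_minimal (t := {x | φ x = 0 ∨ h x - h y ∈ Λ}) (by
    rintro _ ⟨s, hs, rfl⟩
    obtain ⟨l, l0, h1⟩ := key s hs
    by_cases h2 : φ y = 0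
    · exact Or.inl ((h1 y).1 h2)
    · exact Or.inr (by simpa [((h1 y).2 h2).2] using l0)) hC) hx
  obtain ⟨z, hz, z0⟩ : ∃ z ∈ interior {x | φ x = 0 ∨ h x - h y ∈ Λ}, φ z ≠ 0 := by
    by_contra! hc
    refine x1 (show x0 ∈ LinearMap.ker φ from ?_)
    rw [(LinearMap.ker φ).eq_top_of_nonempty_interior' ⟨x, interior_maximal hc isOpen_interior hx⟩]
    trivial
  obtain ⟨n, hn⟩ := exists_nat_gt (h z - h y)
  have h1 : Tendsto (fun t : ℝ => z + (((t - (h z - h y) : ℝ) : 𝕜) * φ z) • u) (𝓝 (h z - h y))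
      (𝓝 z) := Continuous.tendsto' (by fun_prop) _ _ (by simp)
  refine infinite_of_mem_nhds (h z - h y) ?_ (hF n)
  filter_upwards [h1.eventually_mem (mem_interior_iff_mem_nhds.1 hz), gt_mem_nhds hn] with t a b
  refine ⟨?_, b⟩
  simp only [mem_ofPred_eq, h, map_add, map_smul, u1, u2, smul_eq_mul, mul_zero, add_zero, z0,
    false_or, mul_one, add_div, mul_div_cancel_right₀ _ z0, RCLike.ofReal_re] at a
  convert a using 1
  ring

end Pool.Agent.Results.MP_c0f1e3_an.No
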